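import Pool.Agent.H28Z.NwmMain

set_option autoImplicit false

namespace Pool.Agent.Results.MP_7da968_an.NonCyclicSquare

/-- `T` is hypercyclic: some vector has a dense orbit. -/
def Hypercyclic {X : Type*} [NormedAddCommGroup X] [NormedSpace ℂ X] (T : X →L[ℂ] X) : Prop :=
  ∃ x : X, Dense (Set.range fun n : ℕ => (T ^ n) x)

/-- `T` is cyclic: the linear span of the orbit of some vector is dense. -/
def Cyclic {X : Type*} [NormedAddCommGroup X] [NormedSpace ℂ X] (T : X →L[ℂ] X) : Prop :=
  ∃ x : X, Dense ((Submodule.span ℂ (Set.range fun n : ℕ => (T ^ n) x) : Submodule ℂ X) : Set X)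

/-- Every separable infinite-dimensional complex Banach space carries a hypercyclic operator `T`
such that `T ⊕ T` is not cyclic. -/
theorem result (X : Type*) [NormedAddCommGroup X] [NormedSpace ℂ X] [CompleteSpace X]
    [TopologicalSpace.SeparableSpace X] (hX : ¬ FiniteDimensional ℂ X) :
    ∃ T : X →L[ℂ] X, Hypercyclic T ∧ ¬ Cyclic (T.prodMap T) := by
  obtain ⟨T, h1, h2, -⟩ := Pool.Agent.H28Z.Nwm.main hX
  exact ⟨T, h1, h2⟩

end Pool.Agent.Results.MP_7da968_an.NonCyclicSquare
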